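import Pool.Agent.N914.WU.Pair

set_option autoImplicit false
set_option maxHeartbeats 4000000

/-!
# Many cliques in dense sets (helper914)
-/

namespace Pool.Agent.N914.CP

open Finset
open Pool.Agent.N914.WU

open Classical in
/-- the larger elements at a distance in `D` -/
noncomputable def nb (D : Set ℕ) (F : Finset ℕ) (a : ℕ) : Finset ℕ :=
  F.filter (fun b => a < b ∧ b - a ∈ D)

open Classical in
/-- the sets of `v` elements of `F` all of whose differences are in `D` -/
noncomputable def cl (D : Set ℕ) (v : ℕ) (F : Finset ℕ) : Finset (Finset ℕ) :=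
  (powersetCard v F).filter (fun S => ∀ a ∈ S, ∀ b ∈ S, a < b → b - a ∈ D)

theorem edges (D : Set ℕ) (hD : FMin D) (γ : ℝ) (hγ : 0 < γ) : ∃ c : ℝ, 0 < c ∧ ∃ N₀ : ℕ,
    ∀ N : ℕ, N₀ ≤ N → ∀ F : Finset ℕ, F ⊆ range N → γ * N ≤ F.card →
    c * (N : ℝ) ^ 2 ≤ ∑ a ∈ F, ((nb D F a).card : ℝ) := by
  classical
  obtain ⟨κ, hκ, -, hp⟩ := pair D hD
  obtain ⟨m, hm⟩ := exists_nat_ge (4 / γ + 1)
  have hm1 : (1 : ℝ) ≤ m := by
    have : 0 < 4 / γ := by positivity
    linarith
  have hm0 : 0 < m := by exact_mod_cast (lt_of_lt_of_le one_pos hm1)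
  have hmγ : 4 ≤ γ * m := by
    have h1 : 4 / γ ≤ m := by linarith
    rw [div_le_iff₀ hγ] at h1
    linarith
  obtain ⟨L₀, hL₀⟩ := hp (γ / 4) (by positivity) m
  obtain ⟨N₁, hN₁⟩ := exists_nat_ge (4 * m / γ + 1)
  refine ⟨κ * (γ / 4) ^ 2 / (4 * m ^ 2), by positivity, max ((L₀ + 1) * m) (max N₁ (2 * m)),
    fun N hN F hF hFc => ?_⟩
  have hN2 : (L₀ + 1) * m ≤ N := (le_max_left _ _).trans hN
  have hN3 : N₁ ≤ N := (le_max_left _ _).trans ((le_max_right _ _).trans hN)
  have hN4 : 2 * m ≤ N := (le_max_right _ _).trans ((le_max_right _ _).trans hN)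
  set L : ℕ := N / m with hL
  have hLL : L₀ ≤ L := by
    have : (L₀ + 1) ≤ N / m := (Nat.le_div_iff_mul_le hm0).2 hN2
    omega
  have hmL : m * L ≤ N := Nat.mul_div_le N m
  have hL1 : (N : ℝ) ≤ 2 * m * L := by
    have h1 : N < m * (L + 1) := by
      rw [hL]
      exact Nat.lt_mul_div_succ N hm0
    have h2 : 2 * m ≤ N := hN4
    have h3 : N + N ≤ 2 * (m * L) + N := by nlinarith
    have h4 : N ≤ 2 * (m * L) := by omega
    have h5 : (N : ℝ) ≤ 2 * (m * L) := by exact_mod_cast h4
    linarith
  -- two dense blocks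
  set B : ℕ → Finset ℕ := fun j => F ∩ Ico (j * L) (j * L + L) with hB
  have hBL : ∀ j, ((B j).card : ℝ) ≤ L := by
    intro j
    have h1 : (B j).card ≤ (Ico (j * L) (j * L + L)).card := card_le_card inter_subset_right
    rw [Nat.card_Ico] at h1
    have h2 : (B j).card ≤ L := by omega
    exact_mod_cast h2
  have hcov : F ⊆ (range m).biUnion B ∪ Ico (m * L) N := by
    intro x hx
    have hxN := mem_range.1 (hF hx)
    by_cases hxm : x < m * L
    · have hL0 : 0 < L := by
        rcases Nat.eq_zero_or_pos L with h | h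
        · rw [h, mul_zero] at hxm
          omega
        · exact h
      refine mem_union_left _ (mem_biUnion.2 ⟨x / L, ?_, ?_⟩)
      · rw [mem_range]
        exact Nat.div_lt_of_lt_mul (by rwa [mul_comm] at hxm)
      · rw [hB]
        simp only [mem_inter, mem_Ico]
        have h1 := Nat.div_mul_le_self x L
        have h2 : x < x / L * L + L := by
          have := Nat.lt_div_mul_add (a := x) hL0
          exact this
        exact ⟨hx, h1, h2⟩
    · exact mem_union_right _ (mem_Ico.2 ⟨by omega, hxN⟩)
  have hsum : (F.card : ℝ) ≤ ∑ j ∈ range m, ((B j).card : ℝ) + m := by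
    have h1 := card_le_card hcov
    have h2 : ((range m).biUnion B ∪ Ico (m * L) N).card ≤ ∑ j ∈ range m, (B j).card +
        (N - m * L) := by
      refine (card_union_le _ _).trans ?_
      rw [Nat.card_Ico]
      exact Nat.add_le_add_right card_biUnion_le _
    have h3 : N - m * L ≤ m := by
      have : N < m * (L + 1) := by
        rw [hL]
        exact Nat.lt_mul_div_succ N hm0
      have h4 : m * (L + 1) = m * L + m := by ring
      omega
    have h5 : F.card ≤ ∑ j ∈ range m, (B j).card + m := by omega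
    have h6 : (F.card : ℝ) ≤ ((∑ j ∈ range m, (B j).card + m : ℕ) : ℝ) := by exact_mod_cast h5
    push_cast at h6
    exact h6
  have hex : ∃ i j : ℕ, i < j ∧ j < m ∧ γ / 4 * L ≤ (B i).card ∧ γ / 4 * L ≤ (B j).card := by
    by_contra hcon
    push Not at hcon
    -- at most one dense block
    have hone : ∀ i ∈ (range m).filter (fun i => γ / 4 * L ≤ (B i).card),
        ∀ j ∈ (range m).filter (fun i => γ / 4 * L ≤ (B i).card), i = j := by
      intro i hi j hj
      rw [mem_filter, mem_range] at hi hj
      by_contra hne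
      rcases lt_or_gt_of_ne hne with h | h
      · exact absurd hj.2 (not_le.2 (hcon i j h hj.1 hi.2))
      · exact absurd hi.2 (not_le.2 (hcon j i h hi.1 hj.2))
    have h1 : ((range m).filter (fun i => γ / 4 * L ≤ (B i).card)).card ≤ 1 :=
      card_le_one.2 hone
    have h2 : ∑ j ∈ range m, ((B j).card : ℝ) ≤ L + m * (γ / 4 * L) := by
      rw [← sum_filter_add_sum_filter_not (range m) (fun i => γ / 4 * L ≤ (B i).card)]
      apply add_le_add
      · calc ∑ j ∈ (range m).filter (fun i => γ / 4 * L ≤ (B i).card), ((B j).card : ℝ) ≤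
            ∑ j ∈ (range m).filter (fun i => γ / 4 * L ≤ (B i).card), (L : ℝ) :=
              sum_le_sum fun j _ => hBL j
          _ = ((range m).filter (fun i => γ / 4 * L ≤ (B i).card)).card * (L : ℝ) := by
              rw [sum_const, nsmul_eq_mul]
          _ ≤ 1 * L := by
              apply mul_le_mul_of_nonneg_right _ (Nat.cast_nonneg L)
              exact_mod_cast h1
          _ = L := one_mul _
      · calc ∑ j ∈ (range m).filter (fun i => ¬ γ / 4 * L ≤ (B i).card), ((B j).card : ℝ) ≤
            ∑ j ∈ (range m).filter (fun i => ¬ γ / 4 * L ≤ (B i).card), (γ / 4 * L) :=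
              sum_le_sum fun j hj => (not_le.1 (mem_filter.1 hj).2).le
          _ = ((range m).filter (fun i => ¬ γ / 4 * L ≤ (B i).card)).card * (γ / 4 * L) := by
              rw [sum_const, nsmul_eq_mul]
          _ ≤ m * (γ / 4 * L) := by
              apply mul_le_mul_of_nonneg_right _ (by positivity)
              have h3 := card_filter_le (range m) (fun i => ¬ γ / 4 * L ≤ (B i).card)
              rw [card_range] at h3
              exact_mod_cast h3
    have h3 : (m : ℝ) * L ≤ N := by exact_mod_cast hmL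
    have h4 : (L : ℝ) ≤ γ / 4 * N := by
      have h5 : (4 : ℝ) * L ≤ γ * m * L := mul_le_mul_of_nonneg_right hmγ (Nat.cast_nonneg L)
      have h6 : γ * m * L ≤ γ * N := by
        rw [mul_assoc]
        exact mul_le_mul_of_nonneg_left h3 hγ.le
      linarith
    have h5 : (m : ℝ) * (γ / 4 * L) ≤ γ / 4 * N := by
      have : (m : ℝ) * (γ / 4 * L) = γ / 4 * (m * L) := by ring
      rw [this]
      exact mul_le_mul_of_nonneg_left h3 (by positivity)
    have h6 : (m : ℝ) < γ / 4 * N := by
      have h7 : (N₁ : ℝ) ≤ N := by exact_mod_cast hN3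
      have h8 : 4 * m / γ < N := by linarith
      rw [div_lt_iff₀ hγ] at h8
      linarith
    have h7 : 0 < γ * N := by
      have : (0 : ℝ) < N := by
        have : (m : ℝ) < γ / 4 * N := h6
        by_contra hc
        push Not at hc
        have h8 : γ / 4 * N ≤ 0 := mul_nonpos_of_nonneg_of_nonpos (by positivity) hc
        linarith
      positivity
    linarith
  obtain ⟨i, j, hij, hjm, hi, hj⟩ := hex
  have hmul : i * L + L ≤ j * L := by
    have : (i + 1) * L ≤ j * L := Nat.mul_le_mul_right _ hij
    linarith [this, add_mul i 1 L]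
  have hmul2 : j * L + L ≤ i * L + m * L := by
    have : (j + 1) * L ≤ m * L := Nat.mul_le_mul_right _ hjm
    have h2 : (j + 1) * L = j * L + L := by ring
    omega
  have hpr := hL₀ L hLL (i * L) (j * L) hmul hmul2 (B i) (B j) inter_subset_right
    inter_subset_right hi hj
  -- the pairs are counted in the sum
  have hle : (((B i ×ˢ B j).filter (fun p => p.2 - p.1 ∈ D)).card : ℝ) ≤
      ∑ a ∈ F, ((nb D F a).card : ℝ) := by
    have h1 : ((B i ×ˢ B j).filter (fun p => p.2 - p.1 ∈ D)).card ≤
        (F.sigma (fun a => nb D F a)).card := by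
      refine card_le_card_of_injOn (fun p => ⟨p.1, p.2⟩) ?_ ?_
      · intro p hp
        rw [mem_coe, mem_filter, mem_product] at hp
        obtain ⟨⟨h2, h3⟩, h4⟩ := hp
        rw [hB] at h2 h3
        simp only [mem_inter, mem_Ico] at h2 h3
        rw [mem_coe, mem_sigma]
        refine ⟨h2.1, ?_⟩
        unfold nb
        rw [mem_filter]
        exact ⟨h3.1, by simp only; omega, h4⟩
      · rintro ⟨a, b⟩ _ ⟨a', b'⟩ _ h
        simp only [Sigma.mk.injEq, heq_eq_eq] at h
        exact Prod.ext h.1 h.2
    rw [card_sigma] at h1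
    exact_mod_cast h1
  refine le_trans ?_ (hpr.trans hle)
  have h8 : (γ / 4 * L) * (γ / 4 * L) ≤ (B i).card * ((B j).card : ℝ) :=
    mul_le_mul hi hj (by positivity) (Nat.cast_nonneg _)
  have h9 : (N : ℝ) ^ 2 ≤ (2 * m * L) ^ 2 := pow_le_pow_left₀ (Nat.cast_nonneg N) hL1 2
  calc κ * (γ / 4) ^ 2 / (4 * m ^ 2) * (N : ℝ) ^ 2 ≤
      κ * (γ / 4) ^ 2 / (4 * m ^ 2) * (2 * m * L) ^ 2 :=
        mul_le_mul_of_nonneg_left h9 (by positivity)
    _ = κ * ((γ / 4 * L) * (γ / 4 * L)) := by
        have : (m : ℝ) ≠ 0 := by positivity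
        field_simp
        ring
    _ ≤ κ * ((B i).card * (B j).card) := mul_le_mul_of_nonneg_left h8 hκ.le

theorem cliques (D : Set ℕ) (hD : FMin D) (v : ℕ) : ∀ γ : ℝ, 0 < γ → ∃ c : ℝ, 0 < c ∧
    ∃ N₀ : ℕ, ∀ N : ℕ, N₀ ≤ N → ∀ F : Finset ℕ, F ⊆ range N → γ * N ≤ F.card →
    c * (N : ℝ) ^ v ≤ ((cl D v F).card : ℝ) := by
  classical
  induction v with
  | zero =>
    intro γ hγ
    refine ⟨1, one_pos, 0, fun N _ F _ _ => ?_⟩
    have h : cl D 0 F = {∅} := by
      unfold cl
      rw [powersetCard_zero]
      ext S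
      simp only [mem_filter, mem_singleton]
      constructor
      · exact fun h => h.1
      · rintro rfl
        exact ⟨rfl, by simp⟩
    rw [h, card_singleton]
    simp
  | succ v ih =>
    intro γ hγ
    obtain ⟨c₁, hc₁, N₁, h₁⟩ := edges D hD γ hγ
    obtain ⟨c₂, hc₂, N₂, h₂⟩ := ih (c₁ / 2) (by positivity)
    refine ⟨c₁ / 2 * c₂, by positivity, max 1 (max N₁ N₂), fun N hN F hF hFc => ?_⟩
    have hN1 : 1 ≤ N := (le_max_left _ _).trans hN
    have hNN₁ : N₁ ≤ N := (le_max_left _ _).trans ((le_max_right _ _).trans hN)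
    have hNN₂ : N₂ ≤ N := (le_max_right _ _).trans ((le_max_right _ _).trans hN)
    have hN0 : (0 : ℝ) < N := by exact_mod_cast hN1
    have hE := h₁ N hNN₁ F hF hFc
    set G : Finset ℕ := F.filter (fun a => c₁ / 2 * N ≤ ((nb D F a).card : ℝ)) with hG
    have hnbN : ∀ a, ((nb D F a).card : ℝ) ≤ N := by
      intro a
      have h3 : (nb D F a).card ≤ (range N).card := card_le_card ((filter_subset _ _).trans hF)
      rw [card_range] at h3
      exact_mod_cast h3
    have hFN : (F.card : ℝ) ≤ N := by
      have h3 := card_le_card hF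
      rw [card_range] at h3
      exact_mod_cast h3
    have hGc : c₁ / 2 * N ≤ (G.card : ℝ) := by
      have h3 : ∑ a ∈ F, ((nb D F a).card : ℝ) ≤ G.card * N + N * (c₁ / 2 * N) := by
        rw [← sum_filter_add_sum_filter_not F (fun a => c₁ / 2 * N ≤ ((nb D F a).card : ℝ))]
        apply add_le_add
        · calc ∑ a ∈ G, ((nb D F a).card : ℝ) ≤ ∑ a ∈ G, (N : ℝ) := sum_le_sum fun a _ => hnbN a
            _ = G.card * N := by rw [sum_const, nsmul_eq_mul]
        · calc ∑ a ∈ F.filter (fun a => ¬ c₁ / 2 * N ≤ ((nb D F a).card : ℝ)),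
              ((nb D F a).card : ℝ) ≤
              ∑ a ∈ F.filter (fun a => ¬ c₁ / 2 * N ≤ ((nb D F a).card : ℝ)), (c₁ / 2 * N) :=
                sum_le_sum fun a ha => (not_le.1 (mem_filter.1 ha).2).le
            _ = (F.filter (fun a => ¬ c₁ / 2 * N ≤ ((nb D F a).card : ℝ))).card *
                (c₁ / 2 * N) := by rw [sum_const, nsmul_eq_mul]
            _ ≤ N * (c₁ / 2 * N) := by
                apply mul_le_mul_of_nonneg_right _ (by positivity)
                refine le_trans ?_ hFN
                exact_mod_cast card_filter_le _ _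
      have h4 : c₁ * (N : ℝ) ^ 2 ≤ G.card * N + N * (c₁ / 2 * N) := hE.trans h3
      have h5 : c₁ / 2 * N * N ≤ G.card * N := by nlinarith
      exact le_of_mul_le_mul_right h5 hN0
    -- the map
    have hmap : (G.sigma (fun a => cl D v (nb D F a))).card ≤ (cl D (v + 1) F).card := by
      refine card_le_card_of_injOn (fun p => insert p.1 p.2) ?_ ?_
      · rintro ⟨a, S⟩ hp
        rw [mem_coe, mem_sigma] at hp
        obtain ⟨ha, hS⟩ := hp
        simp only at ha hS
        have haF : a ∈ F := (mem_filter.1 ha).1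
        unfold cl at hS
        rw [mem_filter, mem_powersetCard] at hS
        obtain ⟨⟨hS1, hS2⟩, hS3⟩ := hS
        have hgt : ∀ b ∈ S, a < b ∧ b - a ∈ D ∧ b ∈ F := by
          intro b hb
          have h3 := hS1 hb
          unfold nb at h3
          rw [mem_filter] at h3
          exact ⟨h3.2.1, h3.2.2, h3.1⟩
        have haS : a ∉ S := fun h => lt_irrefl _ (hgt a h).1
        rw [mem_coe]
        unfold cl
        rw [mem_filter, mem_powersetCard]
        refine ⟨⟨?_, ?_⟩, ?_⟩
        · intro x hx
          rcases mem_insert.1 hx with rfl | hx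
          · exact haF
          · exact (hgt x hx).2.2
        · simp only
          rw [card_insert_of_notMem haS, hS2]
        · intro x hx y hy hxy
          simp only [mem_insert] at hx hy
          rcases hx with rfl | hx
          · rcases hy with rfl | hy
            · exact absurd hxy (lt_irrefl _)
            · exact (hgt y hy).2.1
          · rcases hy with rfl | hy
            · exact absurd hxy (not_lt.2 (hgt x hx).1.le)
            · exact hS3 x hx y hy hxy
      · rintro ⟨a, S⟩ hp ⟨a', S'⟩ hp' h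
        rw [mem_coe, mem_sigma] at hp hp'
        have key : ∀ (a : ℕ) (S : Finset ℕ), S ∈ cl D v (nb D F a) → ∀ b ∈ S, a < b := by
          intro a S hS b hb
          unfold cl at hS
          rw [mem_filter, mem_powersetCard] at hS
          have h3 := hS.1.1 hb
          unfold nb at h3
          rw [mem_filter] at h3
          exact h3.2.1
        have k1 := key a S hp.2
        have k2 := key a' S' hp'.2
        simp only at h
        have haa : a = a' := by
          have h1 : a ∈ insert a' S' := h ▸ mem_insert_self a S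
          have h2 : a' ∈ insert a S := h.symm ▸ mem_insert_self a' S'
          rcases mem_insert.1 h1 with h1 | h1
          · exact h1
          · rcases mem_insert.1 h2 with h2 | h2
            · exact h2.symm
            · exact absurd (k1 a' h2) (not_lt.2 (k2 a h1).le)
        subst haa
        have hSS : S = S' := by
          have e1 : a ∉ S := fun h => lt_irrefl _ (k1 a h)
          have e2 : a ∉ S' := fun h => lt_irrefl _ (k2 a h)
          rw [← erase_insert e1, ← erase_insert e2, h]
        subst hSS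
        rfl
    have h3 : (G.card : ℝ) * (c₂ * (N : ℝ) ^ v) ≤ ((G.sigma (fun a => cl D v (nb D F a))).card : ℝ) := by
      rw [card_sigma]
      push_cast
      rw [← nsmul_eq_mul, ← sum_const]
      refine sum_le_sum fun a ha => ?_
      exact h₂ N hNN₂ _ ((filter_subset _ _).trans hF) (mem_filter.1 ha).2
    calc c₁ / 2 * c₂ * (N : ℝ) ^ (v + 1) = (c₁ / 2 * N) * (c₂ * (N : ℝ) ^ v) := by ring
      _ ≤ G.card * (c₂ * (N : ℝ) ^ v) := mul_le_mul_of_nonneg_right hGc (by positivity)
      _ ≤ _ := h3.trans (by exact_mod_cast hmap)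

end Pool.Agent.N914.CP
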