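import Pool.Agent.N914.CP.Main
import Pool.Agent.R493.ST.Str

set_option autoImplicit false

/-!
# The theorem of the starting library in the form which is needed (helper914)
-/

namespace Pool.Agent.N914.CP

open Finset

theorem str (k : ℕ) : ∃ B : ℕ, Str k B := by
  obtain ⟨B, hB⟩ := Pool.Agent.R493.ST.strings k
  refine ⟨B, fun L R M => ?_⟩
  obtain ⟨K, hK⟩ := hB L R M
  refine ⟨K, fun V hV Q => ?_⟩
  obtain ⟨x₀, hx₀⟩ := hK V hV (fun _ => id) (fun _ => Function.injective_id.injOn) Q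
  refine ⟨x₀, fun q a x h => ?_⟩
  obtain ⟨W, hW, hWL, h1⟩ := hx₀ q a x h
  exact ⟨W, hW, hWL, h1⟩

end Pool.Agent.N914.CP
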